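import Mathlib
import Pool.Agent.H542R2.MC.Defs

set_option autoImplicit false

/-!
Set systems with `k * 2 ^ b` sets in `k` groups, and refutations of the statement that `k` of the
sets, one from every group, cover the universe.
-/

namespace H542.HS

open MC (Fml)

variable {k b : ℕ}

/-- The names of the sets: there are `k` groups of `2 ^ b` sets, the sets of a group are indexed
by `b` bits. -/
abbrev Sets (k b : ℕ) := Fin k × (Fin b → Bool)

/-- The bits describing a choice of one set from every group. -/
abbrev Bits (k b : ℕ) := Fin k × Fin b

/-- The chosen sets cover the element which lies exactly in the sets `s` with `x s = true`. -/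
def Covers (z : Bits k b → Bool) (x : Sets k b → Bool) : Prop :=
  ∃ r : Fin k, x (r, fun t => z (r, t)) = true

/-- A refutation with `S` lines of the statement that one can choose one set from every group such
that all `N` elements are covered; `X i s` says whether element `i` lies in the set `s`.  The lines
are formulas of size at most `L` over the bits describing the chosen sets.  Every line is implied
by at most `a` earlier lines together with the statements that the elements from a set of size at
most `u` are covered, and some line is unsatisfiable. -/
structure Refutation {N : ℕ} (X : Fin N → Sets k b → Bool) (a u L S : ℕ) where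
  line : Fin S → Fml (Bits k b)
  size_le : ∀ j, (line j).size ≤ L
  sound : ∀ j, ∃ (P : Finset (Fin S)) (Q : Finset (Fin N)), P.card ≤ a ∧ Q.card ≤ u ∧
    (∀ p ∈ P, p < j) ∧ ∀ z, (∀ p ∈ P, (line p).eval z = true) →
      (∀ i ∈ Q, Covers z (X i)) → (line j).eval z = true
  final : ∃ j, ∀ z, (line j).eval z = false

/-- No `K` sets cover the universe. -/
def NoCover {N : ℕ} (X : Fin N → Sets k b → Bool) (K : ℕ) : Prop :=
  ∀ T : Finset (Sets k b), T.card ≤ K → ∃ i, ∀ s ∈ T, X i s = false

end H542.HS
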