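import Mathlib
import Pool.Agent.H542R2.BlockMoment
import Pool.Agent.H542R2.JU.Stubs
import Pool.Agent.H542R2.HS.Defs

set_option autoImplicit false

/-!
Project HS: definitions and exact statements of the parts (as `Prop`s).
-/

namespace H542.HS

open Finset
open H542.JU (cube lv)

/-- AND: the probability that none of disjoint conjunctions holds.  (Induction on `A`: the event
for `A` does not depend on the coordinates in `B q`, `q ∉ A`, so adding `q` multiplies the number
by `1 - 2 ^ (-card (B q)) ≤ 1 - 2 ^ (-E) ≤ exp (-2 ^ (-E))`.) -/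
def AndProp : Prop := ∀ (Ω κ : Type) [Fintype Ω] [DecidableEq Ω] [DecidableEq κ] (A : Finset κ)
    (B : κ → Finset Ω) (E : ℕ) (c : Bool), (∀ p ∈ A, (B p).card ≤ E) →
    (∀ p ∈ A, ∀ q ∈ A, p ≠ q → Disjoint (B p) (B q)) →
    ((univ.filter fun x : Ω → Bool => ∀ p ∈ A, ∃ ω ∈ B p, x ω ≠ c).card : ℝ) ≤
      Real.exp (-((A.card : ℝ) / 2 ^ E)) * 2 ^ Fintype.card Ω

/-- every subcube of dimension `4 * E` of every group contains a set which contains given `E`
elements -/
def Good {k b N : ℕ} (E : ℕ) (X : Fin N → Sets k b → Bool) : Prop :=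
  ∀ (r : Fin k) (F : Finset (Fin b)) (v : Fin b → Bool) (θ : Finset (Fin N)),
    F.card = 4 * E → θ.card ≤ E → ∃ p ∈ cube F v, ∀ i ∈ θ, X i (r, p) = true

open Classical in
/-- GOOD: most set systems are good.  (Union bound over `r`, `F`, `v`, `θ`; apply AND with
`Ω = Fin N × Sets k b` (uncurry), `A = cube F v` of size `2 ^ (4 * E)`, `B p = θ × {(r, p)}`,
`c = true`.) -/
def GoodProp : Prop := AndProp → ∀ k b N E : ℕ,
    ((univ.filter fun X : Fin N → Sets k b → Bool => ¬ Good E X).card : ℝ) ≤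
      k * 4 ^ b * (N + 1) ^ E * Real.exp (-(2 ^ (3 * E))) *
        Fintype.card (Fin N → Sets k b → Bool)

open Classical in
/-- GAP: for most set systems no `K` sets cover.  (Union bound over `T`, at most `(m + 1) ^ K`
sets; apply AND with `Ω = Fin N × Sets k b`, `A = univ`, `B i = {i} × T`, `c = false`.) -/
def GapProp : Prop := AndProp → ∀ k b N K : ℕ,
    ((univ.filter fun X : Fin N → Sets k b → Bool => ¬ NoCover X K).card : ℝ) ≤
      ((k * 2 ^ b : ℕ) + 1) ^ K * Real.exp (-((N : ℝ) / 2 ^ K)) *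
        Fintype.card (Fin N → Sets k b → Bool)

/-- the bit `(r, t)` is the bit `t % M` of the block `(r, t / M)` if `t / M < D`, and `false`
otherwise -/
def sub {k b : ℕ} (D M : ℕ) [NeZero M] (v : Bits k b) : Bool ⊕ ((Fin k × Fin D) × Fin M) :=
  if h : v.2.val / M < D then
    .inr ((v.1, ⟨v.2.val / M, h⟩), ⟨v.2.val % M, Nat.mod_lt _ (Nat.pos_of_ne_zero (NeZero.ne M))⟩)
  else .inl false

/-- LOC: after a restriction and after fixing at most `2 * E * k` further bits, any `E * k / 2`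
elements can be covered.  (Adapt the proof of `H542.JU.j_locj`.  A group `r` is free if at most
`4 * E` of its `8 * E` blocks are in `W`; there are more than `k / 2` free groups.  Distribute the
elements of `Q` over the free groups, at most `E` elements for every group.) -/
def LocProp : Prop := ∀ (k b N E M : ℕ) [NeZero M] (X : Fin N → Sets k b → Bool),
    8 * E * M ≤ b → Good E X → 1 ≤ E → 1 ≤ k →
    ∀ (J : Fin k × Fin (8 * E) → Fin M) (x0 : (Fin k × Fin (8 * E)) × Fin M → Bool)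
      (W : Finset (Fin k × Fin (8 * E))) (β : Fin k × Fin (8 * E) → Bool),
      W.card ≤ 2 * E * k → ∀ Q : Finset (Fin N), 2 * Q.card ≤ E * k →
        ∃ y : Fin k × Fin (8 * E) → Bool, (∀ c ∈ W, y c = β c) ∧
          ∀ i ∈ Q, Covers (fun v => lv (mv J x0 y) (sub (8 * E) M v)) (X i)

/-- NUMG -/
def NumgProp : Prop := ∀ c : ℝ, 0 < c → c ≤ 1 / 4 → ∃ m0 : ℕ, ∀ m N K : ℕ, m0 ≤ m →
    m ^ 2 ≤ N → (N : ℝ) ≤ (2 : ℝ) ^ ((m : ℝ) ^ c) → 4 ^ K ≤ N →
      ((m : ℝ) + 1) ^ K * Real.exp (-((N : ℝ) / 2 ^ K)) ≤ (2 : ℝ) ^ (-(m : ℝ) ^ c) / 2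

end H542.HS
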