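import Mathlib
import Pool.Agent.H542R2.HS.Stubs

/-! H_AND (helper357) -/

set_option autoImplicit false

namespace H542.HS

open Finset

/-- overwriting -/
def handOw {Ω : Type} [DecidableEq Ω] (D : Finset Ω) (c : Bool) (x : Ω → Bool) : Ω → Bool :=
  fun ω => if ω ∈ D then c else x ω

lemma hand_card {Ω κ : Type} [Fintype Ω] [DecidableEq Ω] [DecidableEq κ] (A : Finset κ)
    (B : κ → Finset Ω) (D : Finset Ω) (c : Bool) (hd : ∀ p ∈ A, Disjoint (B p) D) :
    (univ.filter fun x : Ω → Bool => ∀ p ∈ A, ∃ ω ∈ B p, x ω ≠ c).card ≤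
      2 ^ D.card * (univ.filter fun x : Ω → Bool =>
        (∀ p ∈ A, ∃ ω ∈ B p, x ω ≠ c) ∧ ∀ ω ∈ D, x ω = c).card := by
  refine Finset.card_le_mul_card_image_of_maps_to (f := handOw D c) ?_ _ ?_
  · intro x hx
    rw [mem_filter] at hx ⊢
    refine ⟨mem_univ _, fun p hp => ?_, fun ω hω => by simp [handOw, hω]⟩
    obtain ⟨ω, hω, hne⟩ := hx.2 p hp
    have hD : ω ∉ D := fun h => (Finset.disjoint_left.1 (hd p hp)) hω h
    exact ⟨ω, hω, by simpa [handOw, hD] using hne⟩
  · intro y hy
    rw [← Finset.card_powerset D]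
    refine Finset.card_le_card_of_injOn (fun x => D.filter fun ω => x ω = true) ?_ ?_
    · intro x hx
      simp only [Finset.coe_powerset, Set.mem_preimage, Set.mem_powerset_iff, Finset.coe_subset]
      exact Finset.filter_subset _ _
    · intro x hx x' hx' hxx
      have h1 : handOw D c x = y := (Finset.mem_filter.1 hx).2
      have h2 : handOw D c x' = y := (Finset.mem_filter.1 hx').2
      funext ω
      by_cases hω : ω ∈ D
      · have h3 := Finset.ext_iff.1 hxx ω
        simp only [mem_filter, hω, true_and] at h3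
        rcases hb : x ω with _ | _ <;> rcases hb' : x' ω with _ | _ <;> simp_all
      · have h3 := congrFun (h1.trans h2.symm) ω
        simpa [handOw, hω] using h3

theorem h_and : AndProp := by
  intro Ω κ _ _ _ A B E c
  induction A using Finset.induction_on with
  | empty =>
    intro _ _
    have h : (univ.filter fun x : Ω → Bool => ∀ p ∈ (∅ : Finset κ), ∃ ω ∈ B p, x ω ≠ c) = univ := by
      ext x; simp
    rw [h, Finset.card_univ, Fintype.card_fun, Fintype.card_bool]
    simp
  | insert q A hq ih =>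
    intro hE hd
    have ih' := ih (fun p hp => hE p (mem_insert_of_mem hp))
      (fun p hp p' hp' hne => hd p (mem_insert_of_mem hp) p' (mem_insert_of_mem hp') hne)
    have hqE := hE q (mem_insert_self q A)
    have hc := hand_card A B (B q) c (fun p hp => hd p (mem_insert_of_mem hp) q (mem_insert_self q A)
      (fun h => hq (h ▸ hp)))
    set G : Finset (Ω → Bool) := univ.filter fun x : Ω → Bool => ∀ p ∈ A, ∃ ω ∈ B p, x ω ≠ c with hG
    set H : Finset (Ω → Bool) := univ.filter fun x : Ω → Bool =>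
        (∀ p ∈ A, ∃ ω ∈ B p, x ω ≠ c) ∧ ∀ ω ∈ B q, x ω = c with hH
    set G' : Finset (Ω → Bool) :=
      univ.filter fun x : Ω → Bool => ∀ p ∈ insert q A, ∃ ω ∈ B p, x ω ≠ c with hG'
    have hdis : Disjoint G' H := by
      rw [Finset.disjoint_left]
      intro x hx hx'
      obtain ⟨ω, hω, hne⟩ := (Finset.mem_filter.1 hx).2 q (mem_insert_self q A)
      exact hne ((Finset.mem_filter.1 hx').2.2 ω hω)
    have hsub : G' ∪ H ⊆ G := by
      intro x hx
      rcases Finset.mem_union.1 hx with h | h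
      · exact Finset.mem_filter.2 ⟨mem_univ _, fun p hp =>
          (Finset.mem_filter.1 h).2 p (mem_insert_of_mem hp)⟩
      · exact Finset.mem_filter.2 ⟨mem_univ _, (Finset.mem_filter.1 h).2.1⟩
    have hcard : G'.card + H.card ≤ G.card := by
      rw [← Finset.card_union_of_disjoint hdis]
      exact Finset.card_le_card hsub
    have hcardR : (G'.card : ℝ) + H.card ≤ G.card := by exact_mod_cast hcard
    have hcR : (G.card : ℝ) ≤ 2 ^ (B q).card * H.card := by exact_mod_cast hc
    have hpow : (2 : ℝ) ^ (B q).card ≤ 2 ^ E := pow_le_pow_right₀ (by norm_num) hqE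
    have hcR' : (G.card : ℝ) ≤ 2 ^ E * H.card :=
      hcR.trans (mul_le_mul_of_nonneg_right hpow (Nat.cast_nonneg _))
    have hHE : (G.card : ℝ) / 2 ^ E ≤ H.card := by
      rw [div_le_iff₀ (by positivity)]
      linarith
    have h1 : (G'.card : ℝ) ≤ G.card * (1 - 1 / 2 ^ E) := by
      have : (G.card : ℝ) * (1 - 1 / 2 ^ E) = G.card - G.card / 2 ^ E := by ring
      rw [this]; linarith
    have h2 : (1 : ℝ) - 1 / 2 ^ E ≤ Real.exp (-(1 / 2 ^ E)) := by
      have := Real.add_one_le_exp (-(1 / 2 ^ E : ℝ))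
      linarith
    rw [Finset.card_insert_of_notMem hq]
    have h3 : Real.exp (-(((A.card + 1 : ℕ) : ℝ) / 2 ^ E)) =
        Real.exp (-((A.card : ℝ) / 2 ^ E)) * Real.exp (-(1 / 2 ^ E)) := by
      rw [← Real.exp_add]
      congr 1
      push_cast
      ring
    rw [h3]
    calc (G'.card : ℝ) ≤ G.card * (1 - 1 / 2 ^ E) := h1
      _ ≤ G.card * Real.exp (-(1 / 2 ^ E)) := mul_le_mul_of_nonneg_left h2 (Nat.cast_nonneg _)
      _ ≤ (Real.exp (-((A.card : ℝ) / 2 ^ E)) * 2 ^ Fintype.card Ω) * Real.exp (-(1 / 2 ^ E)) :=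
        mul_le_mul_of_nonneg_right ih' (Real.exp_pos _).le
      _ = _ := by ring

end H542.HS
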