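import Mathlib
import Pool.Agent.H542R2.HS.Stubs

set_option autoImplicit false

/-!
Task H_GAP: for most set systems no `K` sets cover.
-/

namespace H542.HS

open Finset

theorem gap_mem {α : Type} (s : Finset α) (p : α → Prop) (i : DecidablePred p) (a : α) :
    a ∈ @Finset.filter α p i s ↔ a ∈ s ∧ p a := mem_filter

open Classical in
/-- the number of sets with at most `u0` elements -/
theorem gap_card_theta (α : Type) [Fintype α] (u0 : ℕ) :
    (univ.filter fun θ : Finset α => θ.card ≤ u0).card ≤ (Fintype.card α + 1) ^ u0 := by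
  have h1 : (univ.filter fun θ : Finset α => θ.card ≤ u0) ⊆
      (univ : Finset (Fin u0 → Option α)).image
        (fun w => univ.filter fun i => ∃ s, w s = some i) := by
    intro θ hθ
    rw [mem_filter] at hθ
    rw [mem_image]
    refine ⟨fun s => θ.toList[s.val]?, mem_univ _, ?_⟩
    ext i
    rw [mem_filter]
    simp only [mem_univ, true_and]
    constructor
    · rintro ⟨s, hs⟩
      exact Finset.mem_toList.1 (List.mem_of_getElem? hs)
    · intro hi
      obtain ⟨n, hn, h⟩ := List.getElem_of_mem (Finset.mem_toList.2 hi)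
      refine ⟨⟨n, ?_⟩, ?_⟩
      · rw [Finset.length_toList] at hn
        exact lt_of_lt_of_le hn hθ.2
      · simp only
        rw [List.getElem?_eq_getElem hn, h]
  refine (card_le_card h1).trans (card_image_le.trans ?_)
  rw [card_univ, Fintype.card_fun, Fintype.card_option, Fintype.card_fin]

open Classical in
theorem gap_one (hA : AndProp) (k b N K : ℕ) (T : Finset (Sets k b)) (hT : T.card ≤ K) :
    ((univ.filter fun X : Fin N → Sets k b → Bool => ∀ i, ∃ s ∈ T, X i s ≠ false).card : ℝ) ≤
      Real.exp (-((N : ℝ) / 2 ^ K)) * Fintype.card (Fin N → Sets k b → Bool) := by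
  have h := hA (Fin N × Sets k b) (Fin N) univ (fun i => {i} ×ˢ T) K false
    (fun p _ => by rw [card_product, card_singleton, one_mul]; exact hT)
    (fun p _ q _ hpq => by
      rw [Finset.disjoint_left]
      rintro ⟨x, s⟩ h1 h2
      rw [mem_product, mem_singleton] at h1 h2
      exact hpq (h1.1.symm.trans h2.1))
  rw [card_univ, Fintype.card_fin] at h
  have hcard : ((Fintype.card (Fin N → Sets k b → Bool) : ℕ) : ℝ) =
      2 ^ Fintype.card (Fin N × Sets k b) := by
    have : Fintype.card (Fin N → Sets k b → Bool) = 2 ^ Fintype.card (Fin N × Sets k b) := by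
      rw [Fintype.card_congr (Equiv.curry (Fin N) (Sets k b) Bool).symm, Fintype.card_fun,
        Fintype.card_bool]
    rw [this]
    push_cast
    rfl
  rw [hcard]
  refine le_trans ?_ h
  rw [Nat.cast_le]
  apply Finset.card_le_card_of_injOn (fun X ω => X ω.1 ω.2)
  · intro X hX
    rw [mem_coe, mem_filter] at hX
    refine mem_coe.2 ((gap_mem _ _ _ _).2 ⟨mem_univ _, fun p _ => ?_⟩)
    obtain ⟨s, hs, h1⟩ := hX.2 p
    exact ⟨(p, s), by rw [mem_product, mem_singleton]; exact ⟨rfl, hs⟩, h1⟩
  · intro X _ X' _ hXX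
    funext i s
    exact congrFun hXX (i, s)

theorem h_gap : GapProp := by
  classical
  intro hA k b N K
  have h1 : (univ.filter fun X : Fin N → Sets k b → Bool => ¬ NoCover X K) ⊆
      (univ.filter fun T : Finset (Sets k b) => T.card ≤ K).biUnion fun T =>
        univ.filter fun X : Fin N → Sets k b → Bool => ∀ i, ∃ s ∈ T, X i s ≠ false := by
    intro X hX
    rw [mem_filter] at hX
    have h2 := hX.2
    unfold NoCover at h2
    push Not at h2
    obtain ⟨T, hT, h3⟩ := h2
    rw [mem_biUnion]
    refine ⟨T, ?_, ?_⟩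
    · rw [mem_filter]; exact ⟨mem_univ _, hT⟩
    · rw [mem_filter]; exact ⟨mem_univ _, h3⟩
  have h2 : ((univ.filter fun X : Fin N → Sets k b → Bool => ¬ NoCover X K).card : ℝ) ≤
      ∑ T ∈ (univ.filter fun T : Finset (Sets k b) => T.card ≤ K),
        ((univ.filter fun X : Fin N → Sets k b → Bool =>
          ∀ i, ∃ s ∈ T, X i s ≠ false).card : ℝ) := by
    have := (card_le_card h1).trans card_biUnion_le
    exact_mod_cast this
  have h3 : ∑ T ∈ (univ.filter fun T : Finset (Sets k b) => T.card ≤ K),
        ((univ.filter fun X : Fin N → Sets k b → Bool =>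
          ∀ i, ∃ s ∈ T, X i s ≠ false).card : ℝ) ≤
      ∑ T ∈ (univ.filter fun T : Finset (Sets k b) => T.card ≤ K),
        Real.exp (-((N : ℝ) / 2 ^ K)) * Fintype.card (Fin N → Sets k b → Bool) := by
    apply sum_le_sum
    intro T hT
    exact gap_one hA k b N K T (mem_filter.1 hT).2
  rw [sum_const, nsmul_eq_mul] at h3
  have h4 : ((univ.filter fun T : Finset (Sets k b) => T.card ≤ K).card : ℝ) ≤
      (((k * 2 ^ b : ℕ) : ℝ) + 1) ^ K := by
    have h5 := gap_card_theta (Sets k b) K
    have h6 : Fintype.card (Sets k b) = k * 2 ^ b := by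
      rw [Fintype.card_prod, Fintype.card_fun, Fintype.card_fin, Fintype.card_bool,
        Fintype.card_fin]
    rw [h6] at h5
    have h7 : (((univ.filter fun T : Finset (Sets k b) => T.card ≤ K).card : ℕ) : ℝ) ≤
      (((k * 2 ^ b + 1) ^ K : ℕ) : ℝ) := by exact_mod_cast h5
    refine h7.trans (le_of_eq ?_)
    push_cast
    ring
  have h8 := (h2.trans h3).trans (mul_le_mul_of_nonneg_right h4 (by positivity))
  rw [mul_assoc]
  convert h8 using 3

end H542.HS
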