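import Mathlib
import Pool.Agent.H542R2.HS.Stubs

set_option autoImplicit false

/-!
Task H_GOOD: most set systems are good.
-/

namespace H542.HS

open Finset
open H542.JU (cube lv)

/-- the number of points of a cube -/
theorem hgood_card_cube {b : ℕ} (F : Finset (Fin b)) (v : Fin b → Bool) :
    (cube F v).card = 2 ^ F.card := by
  classical
  have h : cube F v = Fintype.piFinset (fun t => if t ∈ F then (univ : Finset Bool) else {v t}) := by
    ext p
    rw [cube, mem_filter, Fintype.mem_piFinset]
    simp only [mem_univ, true_and]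
    refine forall_congr' fun t => ?_
    by_cases ht : t ∈ F
    · simp [ht]
    · simp [ht]
  rw [h, Fintype.card_piFinset]
  have h2 : ∀ t : Fin b, (if t ∈ F then (univ : Finset Bool) else {v t}).card =
      if t ∈ F then 2 else 1 := by
    intro t
    by_cases ht : t ∈ F
    · simp [ht]
    · simp [ht]
  simp only [h2]
  rw [prod_ite]
  simp

/-- the number of sets with at most `u0` elements -/
theorem hgood_card_theta (N u0 : ℕ) :
    (univ.filter fun θ : Finset (Fin N) => θ.card ≤ u0).card ≤ (N + 1) ^ u0 := by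
  classical
  have h1 : (univ.filter fun θ : Finset (Fin N) => θ.card ≤ u0) ⊆
      (univ : Finset (Fin u0 → Option (Fin N))).image
        (fun w => univ.filter fun i => ∃ s, w s = some i) := by
    intro θ hθ
    rw [mem_filter] at hθ
    rw [mem_image]
    refine ⟨fun s => θ.toList[s.val]?, mem_univ _, ?_⟩
    ext i
    rw [mem_filter]
    simp only [mem_univ, true_and]
    constructor
    · rintro ⟨s, hs⟩
      exact Finset.mem_toList.1 (List.mem_of_getElem? hs)
    · intro hi
      obtain ⟨n, hn, h⟩ := List.getElem_of_mem (Finset.mem_toList.2 hi)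
      refine ⟨⟨n, ?_⟩, ?_⟩
      · rw [Finset.length_toList] at hn
        exact lt_of_lt_of_le hn hθ.2
      · simp only
        rw [List.getElem?_eq_getElem hn, h]
  refine (card_le_card h1).trans (card_image_le.trans ?_)
  rw [card_univ, Fintype.card_fun, Fintype.card_option, Fintype.card_fin, Fintype.card_fin]

open Classical in
theorem hgood_one (hA : AndProp) (k b N E : ℕ) (r : Fin k) (F : Finset (Fin b))
    (v : Fin b → Bool) (θ : Finset (Fin N)) (hF : F.card = 4 * E) (hθ : θ.card ≤ E) :
    ((univ.filter fun X : Fin N → Sets k b → Bool =>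
      ∀ p ∈ cube F v, ∃ i ∈ θ, X i (r, p) ≠ true).card : ℝ) ≤
      Real.exp (-(2 ^ (3 * E))) * Fintype.card (Fin N → Sets k b → Bool) := by
  have h1 := hA (Fin N × Sets k b) (Fin b → Bool) (cube F v)
    (fun p => θ ×ˢ {((r, p) : Sets k b)}) E true
    (by
      intro p _
      rw [card_product, card_singleton, mul_one]
      exact hθ)
    (by
      intro p _ q _ hpq
      rw [Finset.disjoint_left]
      rintro ⟨i, s⟩ h1 h2
      rw [mem_product, mem_singleton] at h1 h2
      have h3 : (r, p) = (r, q) := h1.2.symm.trans h2.2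
      exact hpq (Prod.ext_iff.1 h3).2)
  have h2 : (univ.filter fun x : Fin N × Sets k b → Bool =>
      ∀ p ∈ cube F v, ∃ ω ∈ θ ×ˢ {((r, p) : Sets k b)}, x ω ≠ true).card =
      (univ.filter fun X : Fin N → Sets k b → Bool =>
      ∀ p ∈ cube F v, ∃ i ∈ θ, X i (r, p) ≠ true).card := by
    refine Finset.card_equiv (Equiv.curry (Fin N) (Sets k b) Bool) fun x => ?_
    rw [mem_filter, mem_filter]
    simp only [mem_univ, true_and]
    refine forall_congr' fun p => forall_congr' fun _ => ?_
    constructor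
    · rintro ⟨⟨i, s⟩, h3, h4⟩
      rw [mem_product, mem_singleton] at h3
      obtain ⟨h3, h5⟩ := h3
      simp only at h3 h5
      subst h5
      exact ⟨i, h3, h4⟩
    · rintro ⟨i, h3, h4⟩
      refine ⟨(i, (r, p)), ?_, h4⟩
      rw [mem_product, mem_singleton]
      exact ⟨h3, rfl⟩
  have h3 : (Fintype.card (Fin N → Sets k b → Bool) : ℝ) =
      2 ^ Fintype.card (Fin N × Sets k b) := by
    rw [← Fintype.card_congr (Equiv.curry (Fin N) (Sets k b) Bool), Fintype.card_fun,
      Fintype.card_bool]
    push_cast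
    rfl
  have h4 : ((cube F v).card : ℝ) / 2 ^ E = 2 ^ (3 * E) := by
    rw [hgood_card_cube, hF, show 4 * E = 3 * E + E by ring, pow_add]
    push_cast
    rw [mul_div_assoc, div_self (by positivity), mul_one]
  rw [h3, ← h4]
  refine le_trans (le_of_eq ?_) h1
  rw [← h2]
  norm_cast

open Classical in
theorem h_good : GoodProp := by
  intro hA k b N E
  set q : ℝ := Real.exp (-(2 ^ (3 * E))) with hq
  set S : ℝ := (Fintype.card (Fin N → Sets k b → Bool) : ℝ) with hS
  have one : ∀ (r : Fin k) (F : Finset (Fin b)) (v : Fin b → Bool) (θ : Finset (Fin N)),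
      F.card = 4 * E → θ.card ≤ E →
      ((univ.filter fun X : Fin N → Sets k b → Bool =>
        ∀ p ∈ cube F v, ∃ i ∈ θ, X i (r, p) ≠ true).card : ℝ) ≤ q * S :=
    fun r F v θ hF hθ => hgood_one hA k b N E r F v θ hF hθ
  -- union bound
  set I : Finset (Fin k × Finset (Fin b) × (Fin b → Bool) × Finset (Fin N)) :=
    univ ×ˢ univ ×ˢ univ ×ˢ (univ.filter fun θ : Finset (Fin N) => θ.card ≤ E) with hI
  set Bd : Fin k × Finset (Fin b) × (Fin b → Bool) × Finset (Fin N) →
      Finset (Fin N → Sets k b → Bool) := fun a =>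
    if a.2.1.card = 4 * E ∧ a.2.2.2.card ≤ E then
      (univ.filter fun X : Fin N → Sets k b → Bool =>
        ∀ p ∈ cube a.2.1 a.2.2.1, ∃ i ∈ a.2.2.2, X i (a.1, p) ≠ true)
    else ∅ with hBd
  have hBdle : ∀ a ∈ I, ((Bd a).card : ℝ) ≤ q * S := by
    intro a _
    rw [hBd]
    simp only
    split_ifs with h
    · exact one a.1 a.2.1 a.2.2.1 a.2.2.2 h.1 h.2
    · rw [card_empty]
      push_cast
      rw [hq, hS]
      positivity
  have hsub : (univ.filter fun X : Fin N → Sets k b → Bool => ¬ Good E X) ⊆ I.biUnion Bd := by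
    intro X hX
    rw [mem_filter] at hX
    have h1 := hX.2
    unfold Good at h1
    push Not at h1
    obtain ⟨r, F, v, θ, hF, hθ, hlt⟩ := h1
    rw [mem_biUnion]
    refine ⟨(r, F, v, θ), ?_, ?_⟩
    · rw [hI]
      simp only [mem_product, mem_univ, true_and, mem_filter]
      exact hθ
    · rw [hBd]
      simp only
      rw [if_pos ⟨hF, hθ⟩, mem_filter]
      exact ⟨mem_univ _, hlt⟩
  have hcI : (I.card : ℝ) ≤ k * 4 ^ b * (N + 1) ^ E := by
    have h1 := hgood_card_theta N E
    have h2 : I.card = k * (2 ^ b * (2 ^ b *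
        (univ.filter fun θ : Finset (Fin N) => θ.card ≤ E).card)) := by
      rw [hI]
      simp only [card_product, card_univ, Fintype.card_fin, Fintype.card_finset, Fintype.card_fun,
        Fintype.card_bool]
    have h3 : I.card ≤ k * 4 ^ b * (N + 1) ^ E := by
      rw [h2]
      calc _ ≤ k * (2 ^ b * (2 ^ b * (N + 1) ^ E)) := by gcongr
        _ = k * (2 * 2) ^ b * (N + 1) ^ E := by rw [mul_pow]; ring
        _ = _ := by norm_num
    exact_mod_cast h3
  calc ((univ.filter fun X : Fin N → Sets k b → Bool => ¬ Good E X).card : ℝ)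
      ≤ ((I.biUnion Bd).card : ℝ) := by exact_mod_cast card_le_card hsub
    _ ≤ ((∑ a ∈ I, (Bd a).card : ℕ) : ℝ) := by exact_mod_cast card_biUnion_le
    _ = ∑ a ∈ I, ((Bd a).card : ℝ) := by push_cast; rfl
    _ ≤ ∑ _a ∈ I, q * S := sum_le_sum hBdle
    _ = I.card * (q * S) := by rw [sum_const, nsmul_eq_mul]
    _ ≤ (k * 4 ^ b * (N + 1) ^ E) * (q * S) := by
        refine mul_le_mul_of_nonneg_right hcI ?_
        rw [hq, hS]
        positivity
    _ = _ := by ring

end H542.HS
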