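import Mathlib
import Pool.Agent.H542R2.HS.Stubs

set_option autoImplicit false

/-!
LOC: local consistency.
-/

namespace H542.HS

open Finset
open H542.JU (cube lv)

theorem hloc_pos_lt {E M b : ℕ} (h : 8 * E * M ≤ b) (c : Fin (8 * E)) (m : Fin M) :
    c.val * M + m.val < b := by
  have h1 : c.val + 1 ≤ 8 * E := c.2
  have h2 : (c.val + 1) * M ≤ 8 * E * M := Nat.mul_le_mul_right M h1
  have h3 := m.2
  have h4 : (c.val + 1) * M = c.val * M + M := Nat.succ_mul _ _
  omega

open Classical in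
theorem hloc_count {k E : ℕ} (hk : 1 ≤ k) (W : Finset (Fin k × Fin (8 * E)))
    (hW : W.card ≤ 2 * E * k) :
    k < 2 * (univ.filter fun j : Fin k => 4 * E ≤
      (univ.filter fun c : Fin (8 * E) => (j, c) ∉ W).card).card := by
  set Fr : Finset (Fin k) := univ.filter fun j : Fin k => 4 * E ≤
      (univ.filter fun c : Fin (8 * E) => (j, c) ∉ W).card with hFr
  have h1 : ∀ j, j ∉ Fr → 4 * E + 1 ≤
      (univ.filter fun c : Fin (8 * E) => (j, c) ∈ W).card := by
    intro j hj
    rw [hFr, mem_filter] at hj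
    have h2 : ¬ 4 * E ≤
        (univ.filter fun c : Fin (8 * E) => (j, c) ∉ W).card :=
      fun h => hj ⟨mem_univ _, h⟩
    have h3 := Finset.card_filter_add_card_filter_not (s := (univ : Finset (Fin (8 * E))))
      (fun c : Fin (8 * E) => (j, c) ∈ W)
    rw [Finset.card_univ, Fintype.card_fin] at h3
    omega
  have h4 : ∑ j : Fin k,
      (univ.filter fun c : Fin (8 * E) => (j, c) ∈ W).card ≤ W.card := by
    have h5 : ∑ j : Fin k,
        (univ.filter fun c : Fin (8 * E) => (j, c) ∈ W).card =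
        ((univ : Finset (Fin k × Fin (8 * E))).filter
          fun q => (q.1, q.2) ∈ W).card := by
      rw [Finset.card_filter, Fintype.sum_prod_type]
      refine sum_congr rfl fun j _ => ?_
      rw [Finset.card_filter]
    rw [h5]
    refine Finset.card_le_card ?_
    intro q hq
    exact (mem_filter.1 hq).2
  have h6 : (univ.filter fun j => j ∉ Fr).card * (4 * E + 1) ≤ ∑ j : Fin k,
      (univ.filter fun c : Fin (8 * E) => (j, c) ∈ W).card := by
    calc (univ.filter fun j => j ∉ Fr).card * (4 * E + 1)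
        = ∑ j ∈ univ.filter (fun j => j ∉ Fr), (4 * E + 1) := by
          rw [sum_const, smul_eq_mul]
      _ ≤ ∑ j ∈ univ.filter (fun j => j ∉ Fr),
          (univ.filter fun c : Fin (8 * E) => (j, c) ∈ W).card :=
          sum_le_sum fun j hj => h1 j (mem_filter.1 hj).2
      _ ≤ _ := sum_le_sum_of_subset (filter_subset _ _)
  have h7 : Fr.card + (univ.filter fun j => j ∉ Fr).card = k := by
    have h := Finset.card_filter_add_card_filter_not (s := (univ : Finset (Fin k)))
      (fun j => j ∈ Fr)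
    rw [Finset.card_univ, Fintype.card_fin] at h
    have h8 : (univ.filter fun j => j ∈ Fr) = Fr := by
      ext j; simp
    rw [h8] at h
    exact h
  by_contra hcon
  set nf := (univ.filter fun j => j ∉ Fr).card with hnf
  have h8 : k ≤ 2 * nf := by omega
  have h9 : 2 * E * k ≤ 2 * E * (2 * nf) := Nat.mul_le_mul_left _ h8
  have h10 : nf * (4 * E + 1) ≤ 2 * E * (2 * nf) := by omega
  have h11 : nf * (4 * E + 1) = 2 * E * (2 * nf) + nf := by ring
  omega

open Classical in
theorem hloc_assign {α β : Type} (Q : Finset α) (Fr : Finset β) (E : ℕ)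
    (h : Q.card ≤ E * Fr.card) (r0 : β) :
    ∃ φ : α → β, (∀ i ∈ Q, φ i ∈ Fr) ∧ ∀ r, (Q.filter fun i => φ i = r).card ≤ E := by
  have hc : Fintype.card Q ≤ Fintype.card (Fr × Fin E) := by
    rw [Fintype.card_coe, Fintype.card_prod, Fintype.card_coe, Fintype.card_fin, mul_comm]
    exact h
  obtain ⟨em⟩ := Function.Embedding.nonempty_of_card_le hc
  refine ⟨fun i => if h : i ∈ Q then ((em ⟨i, h⟩).1 : β) else r0, ?_, ?_⟩
  · intro i hi
    show (if h : i ∈ Q then ((em ⟨i, h⟩).1 : β) else r0) ∈ Fr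
    rw [dif_pos hi]
    exact (em ⟨i, hi⟩).1.2
  · intro r
    have h1 : (Q.filter fun i => (if h : i ∈ Q then ((em ⟨i, h⟩).1 : β) else r0) = r).card ≤
        (univ : Finset (Fin E)).card := by
      refine Finset.card_le_card_of_forall_subsingleton
        (fun i n => ∃ h : i ∈ Q, (em ⟨i, h⟩).2 = n) ?_ ?_
      · intro i hi
        exact ⟨_, mem_univ _, (mem_filter.1 hi).1, rfl⟩
      · rintro n - i ⟨hi, hiQ, hin⟩ i' ⟨hi', hiQ', hin'⟩
        have e1 := (mem_filter.1 hi).2
        have e2 := (mem_filter.1 hi').2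
        rw [dif_pos hiQ] at e1
        rw [dif_pos hiQ'] at e2
        have e3 : em ⟨i, hiQ⟩ = em ⟨i', hiQ'⟩ := by
          apply Prod.ext
          · exact Subtype.ext (e1.trans e2.symm)
          · exact hin.trans hin'.symm
        have e4 := em.injective e3
        exact congrArg Subtype.val e4
    rwa [Finset.card_univ, Fintype.card_fin] at h1

theorem h_loc : LocProp := by
  classical
  intro k b N E M _ X hb hG hE hk J x0 W β hW Q hQ
  have hM : 0 < M := Nat.pos_of_ne_zero (NeZero.ne M)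
  set C : Fin k → Finset (Fin (8 * E)) := fun j =>
    univ.filter fun c => (j, c) ∉ W with hC
  set Fr : Finset (Fin k) := univ.filter fun j => 4 * E ≤ (C j).card with hFr
  have hcount : k < 2 * Fr.card := by
    have := hloc_count hk W hW
    convert this using 3
  have hQlt : Q.card < E * Fr.card := by
    have h : E * k < E * (2 * Fr.card) := Nat.mul_lt_mul_of_pos_left hcount (by omega)
    have h2 : E * (2 * Fr.card) = 2 * (E * Fr.card) := by ring
    omega
  have hex : ∀ j, ∃ D : Finset (Fin (8 * E)), j ∈ Fr → D ⊆ C j ∧ D.card = 4 * E := by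
    intro j
    by_cases hj : j ∈ Fr
    · have hj' := hj
      rw [hFr, mem_filter] at hj'
      obtain ⟨D, hD1, hD2⟩ := Finset.exists_subset_card_eq hj'.2
      exact ⟨D, fun _ => ⟨hD1, hD2⟩⟩
    · exact ⟨∅, fun h => absurd h hj⟩
  choose C' hC' using hex
  let pos : Fin k → Fin (8 * E) → Fin b := fun j c =>
    ⟨c.val * M + (J (j, c)).val, hloc_pos_lt hb c _⟩
  have hposdiv : ∀ j c, (pos j c).val / M = c.val := by
    intro j c
    show (c.val * M + (J (j, c)).val) / M = c.val
    rw [Nat.add_comm, Nat.add_mul_div_right _ _ hM, Nat.div_eq_of_lt (J (j, c)).2, zero_add]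
  have hposmod : ∀ j c, (pos j c).val % M = (J (j, c)).val := by
    intro j c
    show (c.val * M + (J (j, c)).val) % M = _
    rw [Nat.add_comm, Nat.add_mul_mod_self_right, Nat.mod_eq_of_lt (J (j, c)).2]
  have hposinj : ∀ j, Function.Injective (pos j) := by
    intro j c c' h
    apply Fin.ext
    rw [← hposdiv j c, ← hposdiv j c', h]
  let y0 : Fin k × Fin (8 * E) → Bool := fun c => if c ∈ W then β c else false
  let ad : (Fin k × Fin (8 * E) → Bool) → Fin k → Fin b → Bool :=
    fun y r t => lv (mv J x0 y) (sub (8 * E) M (r, t))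
  have hadcongr : ∀ (y y' : Fin k × Fin (8 * E) → Bool) (r : Fin k) (t : Fin b),
      (∀ h : t.val / M < 8 * E, t.val % M = (J (r, ⟨t.val / M, h⟩)).val →
        y (r, ⟨t.val / M, h⟩) = y' (r, ⟨t.val / M, h⟩)) → ad y r t = ad y' r t := by
    intro y y' r t H
    show lv (mv J x0 y) (sub (8 * E) M (r, t)) = lv (mv J x0 y') (sub (8 * E) M (r, t))
    unfold sub
    by_cases h : t.val / M < 8 * E
    · rw [dif_pos h]
      show (if (⟨t.val % M, _⟩ : Fin M) = J (r, ⟨t.val / M, h⟩) then y (r, ⟨t.val / M, h⟩)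
          else x0 _) =
        (if (⟨t.val % M, _⟩ : Fin M) = J (r, ⟨t.val / M, h⟩) then y' (r, ⟨t.val / M, h⟩)
          else x0 _)
      by_cases h2 : (⟨t.val % M, Nat.mod_lt _ hM⟩ : Fin M) = J (r, ⟨t.val / M, h⟩)
      · rw [if_pos h2, if_pos h2]
        exact H h (congrArg Fin.val h2)
      · rw [if_neg h2, if_neg h2]
    · rw [dif_neg h]
      rfl
  have hadpos : ∀ (y : Fin k × Fin (8 * E) → Bool) (j : Fin k) (c : Fin (8 * E)),
      ad y j (pos j c) = y (j, c) := by
    intro y j c
    have h1 : (pos j c).val / M < 8 * E := by rw [hposdiv]; exact c.2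
    have h2 : (⟨(pos j c).val / M, h1⟩ : Fin (8 * E)) = c := Fin.ext (hposdiv j c)
    show lv (mv J x0 y) (sub (8 * E) M (j, pos j c)) = y (j, c)
    unfold sub
    rw [dif_pos h1]
    show (if (⟨(pos j c).val % M, _⟩ : Fin M) = J (j, ⟨(pos j c).val / M, h1⟩) then
      y (j, ⟨(pos j c).val / M, h1⟩) else x0 _) = y (j, c)
    rw [h2, if_pos (Fin.ext (hposmod j c))]
  obtain ⟨φ, hφ1, hφ2⟩ := hloc_assign Q Fr E hQlt.le (⟨0, hk⟩ : Fin k)
  have hp : ∀ j : Fin k, ∃ p : Fin b → Bool, j ∈ Fr →
      p ∈ cube ((C' j).image (pos j)) (ad y0 j) ∧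
        ∀ i ∈ Q, φ i = j → X i (j, p) = true := by
    intro j
    by_cases hj : j ∈ Fr
    · have h1 : ((C' j).image (pos j)).card = 4 * E := by
        rw [Finset.card_image_of_injective _ (hposinj j), (hC' j hj).2]
      obtain ⟨p, hp1, hp2⟩ := hG j ((C' j).image (pos j)) (ad y0 j)
        (Q.filter fun i => φ i = j) h1 (by convert hφ2 j)
      exact ⟨p, fun _ => ⟨hp1, fun i hi hij => hp2 i (mem_filter.2 ⟨hi, hij⟩)⟩⟩
    · exact ⟨fun _ => false, fun h => absurd h hj⟩
  choose p hp using hp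
  let y : Fin k × Fin (8 * E) → Bool := fun q =>
    if q.1 ∈ Fr ∧ q.2 ∈ C' q.1 then p q.1 (pos q.1 q.2) else y0 q
  have hyl : ∀ j c, y (j, c) =
      if j ∈ Fr ∧ c ∈ C' j then p j (pos j c) else y0 (j, c) := fun _ _ => rfl
  have hfree : ∀ j ∈ Fr, ad y j = p j := by
    intro j hj
    funext t
    by_cases ht : t ∈ (C' j).image (pos j)
    · obtain ⟨c, hc, rfl⟩ := mem_image.1 ht
      rw [hadpos, hyl, if_pos ⟨hj, hc⟩]
    · have h1 : p j t = ad y0 j t := by
        have h2 : p j ∈ cube ((C' j).image (pos j)) (ad y0 j) := (hp j hj).1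
        unfold cube at h2
        exact (mem_filter.1 h2).2 t ht
      rw [h1]
      apply hadcongr
      intro h hmod
      rw [hyl, if_neg]
      rintro ⟨-, hc⟩
      apply ht
      refine mem_image.2 ⟨_, hc, ?_⟩
      apply Fin.ext
      show t.val / M * M + (J (j, ⟨t.val / M, h⟩)).val = t.val
      rw [← hmod]
      exact Nat.div_add_mod' _ _
  refine ⟨y, ?_, ?_⟩
  · rintro ⟨j, c⟩ hc
    rw [hyl, if_neg]
    · show (if (j, c) ∈ W then β (j, c) else false) = β (j, c)
      rw [if_pos hc]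
    · rintro ⟨hj, hcj⟩
      have h1 := (hC' j hj).1 hcj
      rw [hC, mem_filter] at h1
      exact h1.2 hc
  · intro i hi
    refine ⟨φ i, ?_⟩
    have h1 : (fun t => lv (mv J x0 y) (sub (8 * E) M (φ i, t))) = p (φ i) :=
      hfree (φ i) (hφ1 i hi)
    show X i (φ i, fun t => lv (mv J x0 y) (sub (8 * E) M (φ i, t))) = true
    rw [h1]
    exact (hp (φ i) (hφ1 i hi)).2 i hi rfl

end H542.HS
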