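import Mathlib
import Pool.Agent.H542R2.HS.Stubs

set_option autoImplicit false

/-! Project HS, task H_NUMG (helper722): numerics. -/

namespace H542.HS

theorem h_numg : NumgProp := by
  intro c hc hc4
  refine ⟨81, fun m N K hm hmN hN hK => ?_⟩
  have hm81 : (81 : ℝ) ≤ (m : ℝ) := by exact_mod_cast hm
  have hm0 : (0 : ℝ) < (m : ℝ) := by linarith
  have hmNr : (m : ℝ) ^ 2 ≤ (N : ℝ) := by exact_mod_cast hmN
  have hKr : (4 : ℝ) ^ K ≤ (N : ℝ) := by exact_mod_cast hK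
  have hN0 : (0 : ℝ) < (N : ℝ) := lt_of_lt_of_le (by positivity) hKr
  set x : ℝ := (m : ℝ) ^ (1 / 4 : ℝ) with hx
  have hx0 : 0 ≤ x := Real.rpow_nonneg hm0.le _
  have hx4 : x ^ 4 = (m : ℝ) := by
    rw [hx, ← Real.rpow_natCast, ← Real.rpow_mul hm0.le]
    norm_num
  have hx3 : 3 ≤ x := by
    by_contra hlt
    push Not at hlt
    have : x ^ 4 < 3 ^ 4 := pow_lt_pow_left₀ hlt hx0 (by norm_num)
    rw [hx4] at this
    norm_num at this
    linarith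
  -- the exponential
  have h2K : (0 : ℝ) < 2 ^ K := by positivity
  have hdiv : (m : ℝ) ≤ (N : ℝ) / 2 ^ K := by
    rw [le_div_iff₀ h2K]
    refine le_of_sq_le_sq ?_ hN0.le
    have e4 : (4 : ℝ) ^ K = (2 ^ K) ^ 2 := by
      rw [← pow_mul, mul_comm, pow_mul]; norm_num
    calc ((m : ℝ) * 2 ^ K) ^ 2 = (m : ℝ) ^ 2 * 4 ^ K := by rw [e4]; ring
      _ ≤ (N : ℝ) * (N : ℝ) := mul_le_mul hmNr hKr (by positivity) hN0.le
      _ = (N : ℝ) ^ 2 := by ring
  -- the exponent `K`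
  have hmc : (m : ℝ) ^ c ≤ x := Real.rpow_le_rpow_of_exponent_le (by linarith) hc4
  have hmc0 : 0 ≤ (m : ℝ) ^ c := Real.rpow_nonneg hm0.le _
  have h2K' : 2 * (K : ℝ) ≤ (m : ℝ) ^ c := by
    have h1 : (2 : ℝ) ^ (2 * (K : ℝ)) ≤ (2 : ℝ) ^ ((m : ℝ) ^ c) := by
      refine le_trans (le_of_eq ?_) (hKr.trans hN)
      rw [Real.rpow_mul (by norm_num), Real.rpow_natCast]
      norm_num
    exact (Real.rpow_le_rpow_left_iff (by norm_num)).mp h1
  have hlog : Real.log ((m : ℝ) + 1) ≤ 8 * x := by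
    have h1 : (m : ℝ) + 1 ≤ (2 * x) ^ 4 := by
      have : (2 * x) ^ 4 = 16 * (m : ℝ) := by rw [mul_pow, hx4]; norm_num
      rw [this]; linarith
    have h2 : Real.log ((m : ℝ) + 1) ≤ Real.log ((2 * x) ^ 4) := Real.log_le_log (by linarith) h1
    rw [Real.log_pow] at h2
    have h3 : Real.log (2 * x) ≤ 2 * x - 1 := Real.log_le_sub_one_of_pos (by linarith)
    push_cast at h2
    linarith
  have hpow : ((m : ℝ) + 1) ^ K ≤ Real.exp (4 * x ^ 2) := by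
    have h1 : ((m : ℝ) + 1) ^ K = Real.exp ((K : ℝ) * Real.log ((m : ℝ) + 1)) := by
      rw [Real.exp_nat_mul, Real.exp_log (by linarith)]
    rw [h1]
    refine Real.exp_le_exp.mpr ?_
    have hK0 : (0 : ℝ) ≤ (K : ℝ) := Nat.cast_nonneg _
    calc (K : ℝ) * Real.log ((m : ℝ) + 1) ≤ (K : ℝ) * (8 * x) :=
          mul_le_mul_of_nonneg_left hlog hK0
      _ ≤ (x / 2) * (8 * x) := mul_le_mul_of_nonneg_right (by linarith) (by linarith)
      _ = 4 * x ^ 2 := by ring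
  have hexp : Real.exp (-((N : ℝ) / 2 ^ K)) ≤ Real.exp (-(m : ℝ)) :=
    Real.exp_le_exp.mpr (by linarith)
  have hR : Real.exp (-(x + 1)) ≤ (2 : ℝ) ^ (-(m : ℝ) ^ c) / 2 := by
    have h1 : (2 : ℝ) ^ (-(m : ℝ) ^ c) / 2 = (2 : ℝ) ^ (-(m : ℝ) ^ c - 1) := by
      rw [Real.rpow_sub_one (by norm_num)]
    rw [h1, Real.rpow_def_of_pos (by norm_num)]
    refine Real.exp_le_exp.mpr ?_
    have hl1 : Real.log 2 ≤ 1 := by
      have := Real.log_le_sub_one_of_pos (show (0 : ℝ) < 2 by norm_num)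
      linarith
    have hl0 : 0 ≤ Real.log 2 := Real.log_nonneg (by norm_num)
    nlinarith
  calc ((m : ℝ) + 1) ^ K * Real.exp (-((N : ℝ) / 2 ^ K)) ≤
        Real.exp (4 * x ^ 2) * Real.exp (-(m : ℝ)) :=
        mul_le_mul hpow hexp (Real.exp_pos _).le (Real.exp_pos _).le
    _ = Real.exp (4 * x ^ 2 - x ^ 4) := by rw [← Real.exp_add, hx4]; congr 1
    _ ≤ Real.exp (-(x + 1)) := by
        refine Real.exp_le_exp.mpr ?_
        have : 4 * x ^ 2 + x + 1 ≤ x ^ 4 := by nlinarith [mul_nonneg hx0 hx0, sq_nonneg (x - 3), sq_nonneg x]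
        linarith
    _ ≤ _ := hR

end H542.HS
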