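import Pool.Agent.H542R2.HS.Main
import Pool.Agent.H542R2.HS.H_AND
import Pool.Agent.H542R2.HS.H_GOOD
import Pool.Agent.H542R2.HS.H_GAP
import Pool.Agent.H542R2.HS.H_LOC
import Pool.Agent.H542R2.HS.H_NUMG

set_option autoImplicit false
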