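import Mathlib
import Pool.Agent.H542R2.JU.Main
import Pool.Agent.H542R2.HS.Stubs

set_option autoImplicit false

/-!
Project HS: the lower bound, from the parts.
-/

namespace H542.HS

open Finset
open MC (Fml)
open H542.JU (lv conv evs_conv leavess_conv exists_restr loc2 exists_M)

/-- the deterministic part -/
theorem core (hloc : LocProp)
    (τ Cb : ℝ) (hτ : 0 < τ) (hCb : 0 < Cb)
    (hmom : ∀ (ι Jt : Type) [Fintype ι] [DecidableEq ι] [Fintype Jt] [DecidableEq Jt]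
      [Nonempty ι] [Nonempty Jt] (ψ : T (ι × Jt) ⊕ Bool),
      ∑ J : ι → Jt, ∑ x : ι × Jt → Bool,
        Real.exp (τ * dep fun y => evs (mv J x y) ψ) ≤
      ((Fintype.card Jt : ℝ) ^ Fintype.card ι * 2 ^ Fintype.card (ι × Jt)) *
        Real.exp (Cb * leavess ψ / (Fintype.card Jt : ℝ) ^ (5 / 4 : ℝ) + τ))
    (k b N E M a u L h S : ℕ) (hM : 1 ≤ M) (hb : 8 * E * M ≤ b) (hE : 1 ≤ E)
    (hk : 1 ≤ k) (hu : 2 * u ≤ E * k) (hah : (a + 1) * h ≤ 2 * E * k)
    (hS : (S : ℝ) * Real.exp (Cb * L / (M : ℝ) ^ (5 / 4 : ℝ) + τ) < Real.exp (τ * (h + 1)))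
    (X : Fin N → Sets k b → Bool) (hX : Good E X) (π : Refutation X a u L S) : False := by
  have : NeZero M := ⟨by omega⟩
  have hne : Nonempty (Fin k × Fin (8 * E)) := ⟨(⟨0, by omega⟩, ⟨0, by omega⟩)⟩
  have hMR : (0 : ℝ) < (M : ℝ) ^ (5 / 4 : ℝ) :=
    Real.rpow_pos_of_pos (by exact_mod_cast hM) _
  obtain ⟨J, x, hdep⟩ := exists_restr (ι := Fin k × Fin (8 * E)) (M := M) τ
    (Real.exp (Cb * L / (M : ℝ) ^ (5 / 4 : ℝ) + τ)) hτ hM L (by
      intro ψ hψ
      have h1 := hmom (Fin k × Fin (8 * E)) (Fin M) ψ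
      rw [Fintype.card_fin] at h1
      refine h1.trans ?_
      apply mul_le_mul_of_nonneg_left _ (by positivity)
      apply Real.exp_le_exp.mpr
      have e1 : (leavess ψ : ℝ) ≤ (L : ℝ) := by exact_mod_cast hψ
      have e3 : Cb * leavess ψ ≤ Cb * (L : ℝ) := mul_le_mul_of_nonneg_left e1 hCb.le
      have e4 := div_le_div_of_nonneg_right e3 hMR.le
      linarith) h (fun j => conv (sub (8 * E) M) true (π.line j))
      (fun j => (leavess_conv _ _ _).trans (π.size_le j)) hS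
  obtain ⟨j, hj⟩ := π.final
  obtain ⟨y, hy⟩ := loc2
    (con := fun i y => Covers (fun v => lv (mv J x y) (sub (8 * E) M v)) (X i))
    (w0 := 2 * E * k) (u0 := u) (a := a) (h := h)
    (fun W β hW Q hQ => hloc k b N E M X hb hX hE hk J x W β hW Q (by omega))
    hah S (fun j y => evs (mv J x y) (conv (sub (8 * E) M) true (π.line j))) hdep
    (by
      intro j
      obtain ⟨P, Q, hP1, hQ1, hP2, hP3⟩ := π.sound j
      refine ⟨P, Q, hP1, hQ1, hP2, fun y hy hyQ => ?_⟩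
      rw [evs_conv, hP3 _ (fun p hp => ?_) hyQ]
      · rfl
      · have := hy p hp
        rw [evs_conv] at this
        simpa using this) j
  rw [evs_conv, hj] at hy
  exact absurd hy (by decide)

theorem hnum_big (M b : ℕ) (hM : 1 ≤ M) (hb : 262144 * M ^ 2 + 1 ≤ b) :
    8 * (6 * (b : ℝ) + 2) ≤ 2 ^ ((b : ℝ) / (16 * M)) := by
  have hMR : (1 : ℝ) ≤ M := by exact_mod_cast hM
  have hbR : (262144 : ℝ) * M ^ 2 + 1 ≤ b := by exact_mod_cast hb
  have hb1 : (1 : ℝ) ≤ b := by nlinarith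
  have h1 : (b : ℝ) / (64 * M) ≤ 2 ^ ((b : ℝ) / (32 * M)) := by
    have e1 : (2 : ℝ) ^ ((b : ℝ) / (32 * M)) = Real.exp (Real.log 2 * ((b : ℝ) / (32 * M))) := by
      rw [Real.rpow_def_of_pos (by norm_num)]
    rw [e1]
    have e2 := Real.add_one_le_exp (Real.log 2 * ((b : ℝ) / (32 * M)))
    have e3 : (1 / 2 : ℝ) ≤ Real.log 2 := by
      have := Real.log_two_gt_d9
      linarith
    have e4 : (1 / 2 : ℝ) * ((b : ℝ) / (32 * M)) ≤ Real.log 2 * ((b : ℝ) / (32 * M)) :=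
      mul_le_mul_of_nonneg_right e3 (by positivity)
    have e5 : (1 / 2 : ℝ) * ((b : ℝ) / (32 * M)) = (b : ℝ) / (64 * M) := by
      field_simp
      ring
    linarith
  have h2 : (2 : ℝ) ^ ((b : ℝ) / (16 * M)) =
      2 ^ ((b : ℝ) / (32 * M)) * 2 ^ ((b : ℝ) / (32 * M)) := by
    rw [← Real.rpow_add (by norm_num)]
    congr 1
    field_simp
    ring
  rw [h2]
  have h3 : (b : ℝ) / (64 * M) * ((b : ℝ) / (64 * M)) ≤
      2 ^ ((b : ℝ) / (32 * M)) * 2 ^ ((b : ℝ) / (32 * M)) :=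
    mul_le_mul h1 h1 (by positivity) (by positivity)
  refine le_trans ?_ h3
  rw [div_mul_div_comm, le_div_iff₀ (by positivity)]
  nlinarith [mul_le_mul_of_nonneg_left hbR (show (0 : ℝ) ≤ b by positivity)]

theorem h_num (M : ℕ) (c : ℝ) (hM : 1 ≤ M) (hc : 0 < c) (hcM : c ≤ 1 / (32 * M)) : ∃ b0 : ℕ,
    ∀ b ≥ b0, ∀ k N : ℕ, (k : ℝ) ≤ 2 ^ (c * b) → (N : ℝ) ≤ (2 : ℝ) ^ ((2 : ℝ) ^ (c * b)) →
      k * 4 ^ b * ((N : ℝ) + 1) ^ (b / (8 * M)) *
        Real.exp (-(2 ^ (3 * (b / (8 * M))))) ≤ (2 : ℝ) ^ (-(2 : ℝ) ^ (c * b)) / 2 := by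
  refine ⟨262144 * M ^ 2 + 1, fun b hb k1 N hk hN => ?_⟩
  have hMR : (1 : ℝ) ≤ M := by exact_mod_cast hM
  have hbig := hnum_big M b hM hb
  have hb1 : 1 ≤ b := by omega
  have hbR : (1 : ℝ) ≤ b := by exact_mod_cast hb1
  obtain ⟨Z, hZ⟩ : ∃ Z : ℝ, Z = 2 ^ ((b : ℝ) / (16 * M)) := ⟨_, rfl⟩
  obtain ⟨T, hT⟩ : ∃ T : ℝ, T = 2 ^ (c * b) := ⟨_, rfl⟩
  obtain ⟨E, hE⟩ : ∃ E, E = b / (8 * M) := ⟨_, rfl⟩
  rw [← hZ] at hbig
  rw [← hT] at hk hN ⊢
  rw [← hE]
  have hcb : c * b ≤ b / (32 * M) := by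
    calc c * b ≤ 1 / (32 * M) * b := mul_le_mul_of_nonneg_right hcM (by positivity)
      _ = b / (32 * M) := by ring
  have hT1 : 1 ≤ T := by
    rw [hT]
    exact Real.one_le_rpow (by norm_num) (by positivity)
  have hTT : T * T ≤ Z := by
    rw [hT, hZ, ← Real.rpow_add (by norm_num)]
    apply Real.rpow_le_rpow_of_exponent_le (by norm_num)
    calc c * b + c * b ≤ b / (32 * M) + b / (32 * M) := add_le_add hcb hcb
      _ = b / (16 * M) := by
        field_simp
        ring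
  have hTZ : T ≤ Z := by nlinarith
  have hZ1 : 1 ≤ Z := hT1.trans hTZ
  have hEb : (E : ℝ) ≤ b := by
    have : E ≤ b := by rw [hE]; exact Nat.div_le_self _ _
    exact_mod_cast this
  -- the factors
  have f1 : (k1 : ℝ) ≤ 2 ^ (b : ℝ) := by
    refine hk.trans ?_
    rw [hT]
    apply Real.rpow_le_rpow_of_exponent_le (by norm_num)
    refine hcb.trans ?_
    rw [div_le_iff₀ (by positivity)]
    nlinarith
  have f2 : (4 : ℝ) ^ b = 2 ^ (2 * (b : ℝ)) := by
    rw [Real.rpow_mul (by norm_num), Real.rpow_natCast]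
    norm_num
  have f3 : ((N : ℝ) + 1) ^ E ≤ 2 ^ (2 * (b : ℝ) * Z) := by
    have g1 : (N : ℝ) + 1 ≤ 2 ^ (2 * T) := by
      have g2 : (1 : ℝ) ≤ 2 ^ T := Real.one_le_rpow (by norm_num) (by linarith)
      have g3 : (2 : ℝ) ^ (2 * T) = 2 ^ T * 2 ^ T := by
        rw [← Real.rpow_add (by norm_num)]
        congr 1
        ring
      have g4 : (2 : ℝ) ≤ 2 ^ T := by
        calc (2 : ℝ) = 2 ^ (1 : ℝ) := (Real.rpow_one _).symm
          _ ≤ 2 ^ T := Real.rpow_le_rpow_of_exponent_le (by norm_num) hT1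
      rw [g3]
      nlinarith
    calc ((N : ℝ) + 1) ^ E ≤ ((2 : ℝ) ^ (2 * T)) ^ E :=
          pow_le_pow_left₀ (by positivity) g1 _
      _ = 2 ^ (2 * T * (E : ℝ)) := by
          rw [← Real.rpow_natCast, ← Real.rpow_mul (by norm_num)]
      _ ≤ 2 ^ (2 * (b : ℝ) * Z) := by
          apply Real.rpow_le_rpow_of_exponent_le (by norm_num)
          calc 2 * T * (E : ℝ) ≤ 2 * Z * b :=
                mul_le_mul (by linarith) hEb (by positivity) (by positivity)
            _ = 2 * b * Z := by ring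
  have f4 : Real.exp (-(2 ^ (3 * E))) ≤ 2 ^ (-(Z ^ 4 / 8)) := by
    have g1 : Z ^ 4 / 4 ≤ 2 ^ (3 * E) := by
      have e1 : (b : ℝ) < 8 * M * (E + 1) := by
        have : b < 8 * M * (E + 1) := by
          rw [hE]
          exact Nat.lt_mul_div_succ _ (by positivity)
        exact_mod_cast this
      have e2 : (b : ℝ) / (8 * M) < E + 1 := by
        rw [div_lt_iff₀ (by positivity)]
        linarith
      have e3 : Z ^ 4 = 2 ^ (2 * ((b : ℝ) / (8 * M))) := by
        rw [hZ, ← Real.rpow_natCast, ← Real.rpow_mul (by norm_num)]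
        congr 1
        push_cast
        field_simp
        ring
      have e4 : Z ^ 4 ≤ 2 ^ (2 * ((E : ℝ) + 1)) := by
        rw [e3]
        apply Real.rpow_le_rpow_of_exponent_le (by norm_num)
        linarith
      have e5 : (2 : ℝ) ^ (2 * ((E : ℝ) + 1)) = 4 * 2 ^ (2 * E) := by
        have : (2 : ℝ) * ((E : ℝ) + 1) = ((2 * E + 2 : ℕ) : ℝ) := by
          push_cast
          ring
        rw [this, Real.rpow_natCast, pow_add]
        ring
      have e6 : (2 : ℝ) ^ (2 * E) ≤ 2 ^ (3 * E) :=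
        pow_le_pow_right₀ (by norm_num) (by omega)
      rw [e5] at e4
      linarith
    have h80 : 0 ≤ Z ^ 4 := by positivity
    calc Real.exp (-(2 ^ (3 * E))) ≤ Real.exp (-(Z ^ 4 / 8)) := by
          apply Real.exp_le_exp.mpr
          linarith
      _ ≤ Real.exp (Real.log 2 * (-(Z ^ 4 / 8))) := by
          apply Real.exp_le_exp.mpr
          have : Real.log 2 ≤ 1 := by
            have := Real.log_two_lt_d9
            linarith
          have h8 : 0 ≤ Z ^ 4 / 8 := by positivity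
          nlinarith
      _ = 2 ^ (-(Z ^ 4 / 8)) := by
          rw [Real.rpow_def_of_pos (by norm_num)]
  have hhalf : (2 : ℝ) ^ (-T) / 2 = 2 ^ (-T - 1) := by
    rw [Real.rpow_sub (by norm_num), Real.rpow_one]
  rw [hhalf]
  calc k1 * 4 ^ b * ((N : ℝ) + 1) ^ E * Real.exp (-(2 ^ (3 * E)))
      ≤ 2 ^ (b : ℝ) * 2 ^ (2 * (b : ℝ)) * 2 ^ (2 * (b : ℝ) * Z) * 2 ^ (-(Z ^ 4 / 8)) := by
        rw [f2]
        gcongr
    _ = 2 ^ ((b : ℝ) + 2 * b + 2 * b * Z + -(Z ^ 4 / 8)) := by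
        rw [Real.rpow_add (by norm_num), Real.rpow_add (by norm_num), Real.rpow_add (by norm_num)]
    _ ≤ (2 : ℝ) ^ (-T - 1) := by
        apply Real.rpow_le_rpow_of_exponent_le (by norm_num)
        have h1 : Z ^ 2 ≤ Z ^ 4 := pow_le_pow_right₀ hZ1 (by norm_num)
        have h2 : 8 * (6 * (b : ℝ) + 2) * Z ≤ Z ^ 2 := by
          rw [sq]
          exact mul_le_mul_of_nonneg_right hbig (by linarith)
        nlinarith

open Classical in
theorem main (hand : AndProp) (hgood : GoodProp) (hloc : LocProp) (C a : ℕ) :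
    ∃ c : ℝ, 0 < c ∧ ∃ b0 : ℕ, ∀ b ≥ b0, ∀ k N : ℕ,
      1 ≤ k → (k : ℝ) ≤ 2 ^ (c * b) → (N : ℝ) ≤ (2 : ℝ) ^ ((2 : ℝ) ^ (c * b)) →
      ((univ.filter fun X : Fin N → Sets k b → Bool =>
        ¬ ∀ u S : ℕ, (u : ℝ) ≤ c * (k * b) → Nonempty (Refutation X a u (C * (k * b)) S) →
            (2 : ℝ) ^ (c * (k * b)) ≤ S).card : ℝ) ≤
        (2 : ℝ) ^ (-(2 : ℝ) ^ (c * b)) / 2 * Fintype.card (Fin N → Sets k b → Bool) := by
  obtain ⟨τ, Cb, hτ, _, hCb, hmom⟩ := block_moment (5 / 4) (by norm_num) (by norm_num)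
  obtain ⟨M, hM, hMx⟩ := exists_M (32 * Cb * C * (a + 1) / τ)
  have hMR : (1 : ℝ) ≤ M := by exact_mod_cast hM
  obtain ⟨c, hc⟩ : ∃ c, c = min (τ / (32 * M * (a + 1))) (1 / (32 * M)) := ⟨_, rfl⟩
  have hc0 : 0 < c := by rw [hc]; exact lt_min (by positivity) (by positivity)
  have hc1 : c ≤ τ / (32 * M * (a + 1)) := by rw [hc]; exact min_le_left _ _
  have hc2 : c ≤ 1 / (32 * M) := by rw [hc]; exact min_le_right _ _
  obtain ⟨b1, hb1⟩ := h_num M c hM hc0 hc2
  refine ⟨c, hc0, max b1 (8 * M * (a + 2)), fun b hb k N hk hk1 hN => ?_⟩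
  have hbb1 : b1 ≤ b := (le_max_left _ _).trans hb
  have hbb2 : 8 * M * (a + 2) ≤ b := (le_max_right _ _).trans hb
  obtain ⟨E, hE⟩ : ∃ E, E = b / (8 * M) := ⟨_, rfl⟩
  have hE1 : a + 2 ≤ E := by
    rw [hE, Nat.le_div_iff_mul_le (by omega)]
    linarith
  have hE2 : 8 * E * M ≤ b := by
    have : E * (8 * M) ≤ b := by rw [hE]; exact Nat.div_mul_le_self _ _
    linarith
  have hE3 : b < 8 * M * (E + 1) := by rw [hE]; exact Nat.lt_mul_div_succ b (by omega)
  have hER : (a : ℝ) + 2 ≤ E := by exact_mod_cast hE1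
  have hbE : (b : ℝ) ≤ 16 * M * E := by
    have h1 : (b : ℝ) < 8 * M * (E + 1) := by exact_mod_cast hE3
    have h2 : (0 : ℝ) ≤ a := by positivity
    nlinarith
  have hkR : (1 : ℝ) ≤ k := by exact_mod_cast hk
  have hgd := hgood hand k b N E
  have hnum := hb1 b hbb1 k N hk1 hN
  rw [← hE] at hnum
  have hcard : (0 : ℝ) ≤ Fintype.card (Fin N → Sets k b → Bool) := by positivity
  refine le_trans ?_ (hgd.trans (mul_le_mul_of_nonneg_right hnum hcard))
  have hsub : (univ.filter fun X : Fin N → Sets k b → Bool =>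
        ¬ ∀ u S : ℕ, (u : ℝ) ≤ c * (k * b) → Nonempty (Refutation X a u (C * (k * b)) S) →
            (2 : ℝ) ^ (c * (k * b)) ≤ S) ⊆
      univ.filter fun X : Fin N → Sets k b → Bool => ¬ Good E X := by
    intro X hX
    rw [mem_filter] at hX ⊢
    refine ⟨mem_univ _, fun hG => hX.2 ?_⟩
    rintro u S hu ⟨π⟩
    by_contra hS
    push Not at hS
    -- parameters
    have hkE : (0 : ℝ) ≤ k * E := by positivity
    have hkb : (k : ℝ) * b ≤ 16 * M * (k * E) := by nlinarith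
    have hu2 : 2 * u ≤ E * k := by
      have h1 : 2 * (u : ℝ) ≤ E * k := by
        have h2 : c * (k * b) ≤ 1 / (32 * M) * (16 * M * (k * E)) := by
          apply mul_le_mul hc2 hkb (by positivity) (by positivity)
        have h3 : 1 / (32 * (M : ℝ)) * (16 * M * (k * E)) = E * k / 2 := by
          field_simp
          ring
        linarith
      exact_mod_cast h1
    obtain ⟨h, hh⟩ : ∃ h, h = 2 * E * k / (a + 1) := ⟨_, rfl⟩
    have hah : (a + 1) * h ≤ 2 * E * k := by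
      rw [hh, mul_comm]
      exact Nat.div_mul_le_self _ _
    have hh2 : (2 * E * k : ℝ) < (a + 1) * (h + 1) := by
      have e1 : 2 * E * k < (a + 1) * (h + 1) := by
        rw [hh]
        exact Nat.lt_mul_div_succ _ (by omega)
      exact_mod_cast e1
    refine core hloc τ Cb hτ hCb hmom k b N E M a u (C * (k * b)) h S hM
      hE2 (by omega) hk hu2 hah ?_ X hG π
    have hapos : (0 : ℝ) < a + 1 := by positivity
    have e1 : (S : ℝ) < Real.exp (τ * (k * E) / (2 * (a + 1))) := by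
      refine hS.trans_le ?_
      calc (2 : ℝ) ^ (c * (k * b)) ≤ (Real.exp 1) ^ (c * (k * b)) := by
            apply Real.rpow_le_rpow (by norm_num) _ (by positivity)
            have := Real.add_one_le_exp (1 : ℝ)
            linarith
        _ = Real.exp (c * (k * b)) := by rw [← Real.exp_mul, one_mul]
        _ ≤ _ := by
            apply Real.exp_le_exp.mpr
            have h2 : c * (k * b) ≤ τ / (32 * M * (a + 1)) * (16 * M * (k * E)) := by
              apply mul_le_mul hc1 hkb (by positivity) (by positivity)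
            have h3 : τ / (32 * (M : ℝ) * (a + 1)) * (16 * M * (k * E)) =
                τ * (k * E) / (2 * (a + 1)) := by
              field_simp
              ring
            linarith
    have e2 : Cb * ((C * (k * b) : ℕ) : ℝ) / (M : ℝ) ^ (5 / 4 : ℝ) ≤
        τ * (k * E) / (2 * (a + 1)) := by
      have hM0 : (0 : ℝ) < M := by linarith
      have hM4 : (M : ℝ) ^ (5 / 4 : ℝ) = M * (M : ℝ) ^ (1 / 4 : ℝ) := by
        have : (5 / 4 : ℝ) = 1 + 1 / 4 := by norm_num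
        rw [this, Real.rpow_add hM0, Real.rpow_one]
      have hr : 0 < (M : ℝ) ^ (1 / 4 : ℝ) := Real.rpow_pos_of_pos hM0 _
      rw [hM4, div_le_iff₀ (by positivity)]
      push_cast
      have f1 : Cb * (C * (k * b)) ≤ Cb * (C * (16 * M * (k * E))) := by
        apply mul_le_mul_of_nonneg_left _ hCb.le
        exact mul_le_mul_of_nonneg_left hkb (by positivity)
      refine f1.trans ?_
      rw [div_le_iff₀ hτ] at hMx
      have f2 : Cb * (C * (16 * M * (k * E))) =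
          (32 * Cb * C * (a + 1)) * (M * (k * E) / (2 * (a + 1))) := by
        field_simp
        ring
      have f3 : τ * (k * E) / (2 * (a + 1)) * (M * (M : ℝ) ^ (1 / 4 : ℝ)) =
          ((M : ℝ) ^ (1 / 4 : ℝ) * τ) * (M * (k * E) / (2 * (a + 1))) := by
        field_simp
      rw [f2, f3]
      exact mul_le_mul_of_nonneg_right hMx (by positivity)
    calc (S : ℝ) * Real.exp (Cb * ((C * (k * b) : ℕ) : ℝ) / (M : ℝ) ^ (5 / 4 : ℝ) + τ)
        < Real.exp (τ * (k * E) / (2 * (a + 1))) *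
          Real.exp (Cb * ((C * (k * b) : ℕ) : ℝ) / (M : ℝ) ^ (5 / 4 : ℝ) + τ) :=
          mul_lt_mul_of_pos_right e1 (Real.exp_pos _)
      _ = Real.exp (τ * (k * E) / (2 * (a + 1)) +
          (Cb * ((C * (k * b) : ℕ) : ℝ) / (M : ℝ) ^ (5 / 4 : ℝ) + τ)) :=
          (Real.exp_add _ _).symm
      _ ≤ Real.exp (τ * (h + 1)) := by
          apply Real.exp_le_exp.mpr
          have g1 : 2 * (k * E) / ((a : ℝ) + 1) ≤ h + 1 := by
            rw [div_le_iff₀ hapos]
            linarith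
          have g2 : 1 ≤ (k * E) / ((a : ℝ) + 1) := by
            rw [le_div_iff₀ hapos]
            nlinarith
          have g3 : τ * (k * E) / (2 * (a + 1)) = τ * ((k * E) / ((a : ℝ) + 1)) / 2 := by
            field_simp
          have g4 : τ * (2 * (k * E) / ((a : ℝ) + 1)) ≤ τ * (h + 1) :=
            mul_le_mul_of_nonneg_left g1 hτ.le
          have g5 : τ * (2 * (k * E) / ((a : ℝ) + 1)) = 2 * (τ * ((k * E) / ((a : ℝ) + 1))) := by
            ring
          have g6 : τ * 1 ≤ τ * ((k * E) / ((a : ℝ) + 1)) := mul_le_mul_of_nonneg_left g2 hτ.le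
          linarith
  exact_mod_cast card_le_card hsub

open Classical in
theorem final (hand : AndProp) (hgood : GoodProp) (hgap : GapProp) (hloc : LocProp)
    (hnumg : NumgProp) (C a : ℕ) : ∃ c : ℝ, 0 < c ∧ ∃ m0 : ℕ, ∀ k b m N K : ℕ,
      m = k * 2 ^ b → m0 ≤ m → 1 ≤ k → (k : ℝ) ≤ (m : ℝ) ^ c → m ^ 2 ≤ N →
      (N : ℝ) ≤ (2 : ℝ) ^ ((m : ℝ) ^ c) → 4 ^ K ≤ N →
      ((univ.filter fun X : Fin N → Sets k b → Bool =>
        ¬ (NoCover X K ∧ ∀ u S : ℕ, (u : ℝ) ≤ c * (k * Real.logb 2 m) →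
          Nonempty (Refutation X a u (C * (k * b)) S) → (m : ℝ) ^ (c * k) ≤ S)).card : ℝ) ≤
        (2 : ℝ) ^ (-(m : ℝ) ^ c) * Fintype.card (Fin N → Sets k b → Bool) := by
  obtain ⟨c0, hc0, b0, hmain⟩ := main hand hgood hloc C a
  obtain ⟨c, hc⟩ : ∃ c : ℝ, c = min (1 / 4) (c0 / 2) := ⟨_, rfl⟩
  have hcpos : 0 < c := by rw [hc]; exact lt_min (by norm_num) (by positivity)
  have hc1 : c ≤ 1 / 4 := by rw [hc]; exact min_le_left _ _
  have hc2 : c ≤ c0 / 2 := by rw [hc]; exact min_le_right _ _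
  have hc4 : 2 * c ≤ c0 := by linarith
  obtain ⟨m1, hm1'⟩ := hnumg c hcpos hc1
  refine ⟨c, hcpos, max m1 (4 ^ b0 + 1), fun k b m N K hm hm0 hk0 hkm hmN hN hK => ?_⟩
  have hmm1 : m1 ≤ m := (le_max_left _ _).trans hm0
  have hmm2 : 4 ^ b0 + 1 ≤ m := (le_max_right _ _).trans hm0
  have hm1 : 1 ≤ m := le_trans (Nat.le_add_left 1 _) hmm2
  have hmR : (1 : ℝ) ≤ m := by exact_mod_cast hm1
  have hmpos : (0 : ℝ) < m := by linarith
  have hkR : (1 : ℝ) ≤ k := by exact_mod_cast hk0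
  have hmk : (m : ℝ) = k * 2 ^ b := by rw [hm]; push_cast; ring
  -- m ≤ 4 ^ b
  have h1 : (k : ℝ) * k ≤ m := by
    have e1 : (k : ℝ) ≤ (m : ℝ) ^ (1 / 2 : ℝ) :=
      hkm.trans (Real.rpow_le_rpow_of_exponent_le hmR (by linarith))
    have e2 : (m : ℝ) ^ (1 / 2 : ℝ) * (m : ℝ) ^ (1 / 2 : ℝ) = m := by
      rw [← Real.rpow_add hmpos]
      norm_num
    calc (k : ℝ) * k ≤ (m : ℝ) ^ (1 / 2 : ℝ) * (m : ℝ) ^ (1 / 2 : ℝ) :=
          mul_le_mul e1 e1 (by positivity) (by positivity)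
      _ = m := e2
  have h2 : (k : ℝ) ≤ 2 ^ b := by
    rw [hmk] at h1
    exact le_of_mul_le_mul_left h1 (by linarith)
  have h3 : (m : ℝ) ≤ 2 ^ (2 * (b : ℝ)) := by
    have e1 : (2 : ℝ) ^ (2 * (b : ℝ)) = 2 ^ b * 2 ^ b := by
      rw [← pow_add, ← Real.rpow_natCast]
      congr 1
      push_cast
      ring
    rw [e1, hmk]
    exact mul_le_mul_of_nonneg_right h2 (by positivity)
  have hb : b0 ≤ b := by
    by_contra hcon
    push Not at hcon
    have e1 : (m : ℝ) ≤ 4 ^ b0 := by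
      refine h3.trans ?_
      have e2 : (2 : ℝ) ^ (2 * (b : ℝ)) = 4 ^ b := by
        rw [Real.rpow_mul (by norm_num), Real.rpow_natCast]
        norm_num
      rw [e2]
      exact pow_le_pow_right₀ (by norm_num) hcon.le
    have e3 : m ≤ 4 ^ b0 := by exact_mod_cast e1
    exact absurd (hmm2.trans e3) (Nat.not_succ_le_self _)
  have h4 : (m : ℝ) ^ c ≤ 2 ^ (c0 * b) := by
    calc (m : ℝ) ^ c ≤ (2 ^ (2 * (b : ℝ))) ^ c := Real.rpow_le_rpow (by linarith) h3 hcpos.le
      _ = 2 ^ (2 * (b : ℝ) * c) := by rw [← Real.rpow_mul (by norm_num)]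
      _ ≤ 2 ^ (c0 * b) := by
          apply Real.rpow_le_rpow_of_exponent_le (by norm_num)
          have : 2 * c * b ≤ c0 * b := mul_le_mul_of_nonneg_right hc4 (by positivity)
          linarith
  have hck : 2 * c * k ≤ c0 * k := mul_le_mul_of_nonneg_right hc4 (by positivity)
  have hmain' := hmain b hb k N hk0 (hkm.trans h4)
    (hN.trans (Real.rpow_le_rpow_of_exponent_le (by norm_num) h4))
  have hfrac : (2 : ℝ) ^ (-(2 : ℝ) ^ (c0 * b)) / 2 ≤ (2 : ℝ) ^ (-(m : ℝ) ^ c) / 2 := by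
    apply div_le_div_of_nonneg_right _ (by norm_num)
    apply Real.rpow_le_rpow_of_exponent_le (by norm_num)
    linarith
  have hcard : (0 : ℝ) ≤ Fintype.card (Fin N → Sets k b → Bool) := by positivity
  have hA := hmain'.trans (mul_le_mul_of_nonneg_right hfrac hcard)
  have hB := hgap hand k b N K
  rw [← hm] at hB
  have hB' := hB.trans (mul_le_mul_of_nonneg_right (hm1' m N K hmm1 hmN hN hK) hcard)
  have hsub : (univ.filter fun X : Fin N → Sets k b → Bool =>
        ¬ (NoCover X K ∧ ∀ u S : ℕ, (u : ℝ) ≤ c * (k * Real.logb 2 m) →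
          Nonempty (Refutation X a u (C * (k * b)) S) → (m : ℝ) ^ (c * k) ≤ S)) ⊆
      (univ.filter fun X : Fin N → Sets k b → Bool => ¬ NoCover X K) ∪
      univ.filter fun X : Fin N → Sets k b → Bool =>
        ¬ ∀ u S : ℕ, (u : ℝ) ≤ c0 * (k * b) → Nonempty (Refutation X a u (C * (k * b)) S) →
            (2 : ℝ) ^ (c0 * (k * b)) ≤ S := by
    intro X hX
    rw [mem_filter] at hX
    rw [mem_union, mem_filter, mem_filter]
    by_cases hNC : NoCover X K
    · refine Or.inr ⟨mem_univ _, fun hG => hX.2 ⟨hNC, fun u S hu hπ => ?_⟩⟩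
      have hlog : Real.logb 2 m ≤ 2 * b := by
        calc Real.logb 2 m ≤ Real.logb 2 (2 ^ (2 * (b : ℝ))) :=
              Real.logb_le_logb_of_le (by norm_num) hmpos h3
          _ = 2 * b := by rw [Real.logb_rpow (by norm_num) (by norm_num)]
      have hu' : (u : ℝ) ≤ c0 * (k * b) := by
        calc (u : ℝ) ≤ c * (k * Real.logb 2 m) := hu
          _ ≤ c * (k * (2 * b)) := by
              apply mul_le_mul_of_nonneg_left _ hcpos.le
              exact mul_le_mul_of_nonneg_left hlog (by positivity)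
          _ = 2 * c * k * b := by ring
          _ ≤ c0 * k * b := mul_le_mul_of_nonneg_right hck (by positivity)
          _ = c0 * (k * b) := by ring
      refine le_trans ?_ (hG u S hu' hπ)
      calc (m : ℝ) ^ (c * k) ≤ (2 ^ (2 * (b : ℝ))) ^ (c * k) :=
            Real.rpow_le_rpow (by linarith) h3 (by positivity)
        _ = 2 ^ (2 * (b : ℝ) * (c * k)) := by rw [← Real.rpow_mul (by norm_num)]
        _ ≤ 2 ^ (c0 * (k * b)) := by
            apply Real.rpow_le_rpow_of_exponent_le (by norm_num)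
            calc 2 * (b : ℝ) * (c * k) = 2 * c * k * b := by ring
              _ ≤ c0 * k * b := mul_le_mul_of_nonneg_right hck (by positivity)
              _ = c0 * (k * b) := by ring
    · exact Or.inl ⟨mem_univ _, hNC⟩
  have hcc := (card_le_card hsub).trans (card_union_le _ _)
  have hccR : ((univ.filter fun X : Fin N → Sets k b → Bool =>
        ¬ (NoCover X K ∧ ∀ u S : ℕ, (u : ℝ) ≤ c * (k * Real.logb 2 m) →
          Nonempty (Refutation X a u (C * (k * b)) S) → (m : ℝ) ^ (c * k) ≤ S)).card : ℝ) ≤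
      ((univ.filter fun X : Fin N → Sets k b → Bool => ¬ NoCover X K).card : ℝ) +
      ((univ.filter fun X : Fin N → Sets k b → Bool =>
        ¬ ∀ u S : ℕ, (u : ℝ) ≤ c0 * (k * b) → Nonempty (Refutation X a u (C * (k * b)) S) →
            (2 : ℝ) ^ (c0 * (k * b)) ≤ S).card : ℝ) := by
    exact_mod_cast hcc
  refine hccR.trans ((add_le_add hB' hA).trans (le_of_eq ?_))
  ring

end H542.HS
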